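import Mathlib

/-!
# MP_ea20df_gt: countably compact bases in locally pseudocompact spaces of weight at most `𝔠`
-/

namespace Pool.Agent.Results.MP_ea20df_gt.WeightAtMostContinuum

open Set Topology Cardinal Function TopologicalSpace

universe u

/-- `X` is pseudocompact: every continuous real function on `X` is bounded. -/
def Pseudocompact (X : Type u) [TopologicalSpace X] : Prop :=
  ∀ f : X → ℝ, Continuous f → ∃ M : ℝ, ∀ x, |f x| ≤ M

/-- `X` is locally pseudocompact: every point has an open neighbourhood whose closure in `X` is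
pseudocompact (as a subspace). -/
def LocallyPseudocompact (X : Type u) [TopologicalSpace X] : Prop :=
  ∀ x : X, ∃ O : Set X, IsOpen O ∧ x ∈ O ∧ Pseudocompact (closure O)

/-- a family of sets is countably compact: every decreasing sequence of members has a common
point. -/
def CountablyCompactFamily {X : Type u} (B : Set (Set X)) : Prop :=
  ∀ s : ℕ → Set X, (∀ n, s n ∈ B) → Antitone s → (⋂ n, s n).Nonempty

/-- a pseudobase: each member has nonempty interior, and each nonempty open set contains a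
member. -/
def IsPseudobase {X : Type u} [TopologicalSpace X] (B : Set (Set X)) : Prop :=
  (∀ b ∈ B, (interior b).Nonempty) ∧ ∀ U : Set X, IsOpen U → U.Nonempty → ∃ b ∈ B, b ⊆ U

/-- Oxtoby countably compact: there is a countably compact pseudobase consisting of open sets. -/
def OxtobyCountablyCompact (X : Type u) [TopologicalSpace X] : Prop :=
  ∃ B : Set (Set X), (∀ b ∈ B, IsOpen b) ∧ IsPseudobase B ∧ CountablyCompactFamily B

/-- Telgarsky countably compact: there is a countably compact base of the topology. -/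
def TelgarskyCountablyCompact (X : Type u) [TopologicalSpace X] : Prop :=
  ∃ B : Set (Set X), IsTopologicalBasis B ∧ CountablyCompactFamily B

/-- the weight of `X` is at most the continuum. -/
def WeightLEContinuum (X : Type u) [TopologicalSpace X] : Prop :=
  ∃ W : Set (Set X), IsTopologicalBasis W ∧ #W ≤ 𝔠

/-- `D` has `π`-weight at most the continuum: there are at most `𝔠` nonempty open subsets of `D`
such that every nonempty open subset of `D` contains one of them. -/
def PiWeightLEContinuum {X : Type u} [TopologicalSpace X] (D : Set X) : Prop :=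
  ∃ W : Set (Set X), (∀ w ∈ W, IsOpen w ∧ w.Nonempty ∧ w ⊆ D) ∧
    (∀ U : Set X, IsOpen U → U.Nonempty → U ⊆ D → ∃ w ∈ W, w ⊆ U) ∧ #W ≤ 𝔠

/-! ## Choice of the levels -/

lemma exists_level {X : Type u} [TopologicalSpace X] {T : Type} (hT : #T < 𝔠)
    (f : X → ℝ) (hf : Continuous f) (U : T → Set X) :
    ∃ s ∈ Ioo (0 : ℝ) 1, ∀ b : T, {x | s < f x} ⊆ U b → closure {x | s < f x} ⊆ U b := by
  by_contra hcon
  push Not at hcon
  have hcon' : ∀ s : Ioo (0 : ℝ) 1, ∃ b : T, {x | s.1 < f x} ⊆ U b ∧
      ¬ closure {x | s.1 < f x} ⊆ U b := fun s => hcon s.1 s.2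
  choose b hb1 hb2 using hcon'
  have hinj : Injective b := by
    have key : ∀ s s' : Ioo (0 : ℝ) 1, s.1 < s'.1 → b s ≠ b s' := by
      intro s s' hlt heq
      apply hb2 s'
      rw [← heq]
      refine Subset.trans ?_ (hb1 s)
      have hc : IsClosed {x | s'.1 ≤ f x} := isClosed_le continuous_const hf
      have hsub : {x | s'.1 < f x} ⊆ {x | s'.1 ≤ f x} := by
        intro x hx
        rw [mem_ofPred_eq] at hx ⊢
        exact le_of_lt hx
      refine Subset.trans (closure_minimal hsub hc) ?_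
      intro x hx
      rw [mem_ofPred_eq] at hx ⊢
      exact lt_of_lt_of_le hlt hx
    intro s s' h
    rcases lt_trichotomy s.1 s'.1 with h1 | h1 | h1
    · exact absurd h (key _ _ h1)
    · exact Subtype.ext h1
    · exact absurd h.symm (key _ _ h1)
  have h1 : #(Ioo (0 : ℝ) 1) ≤ #T := Cardinal.mk_le_of_injective hinj
  rw [Cardinal.mk_Ioo_real (by norm_num)] at h1
  exact absurd hT (not_lt.2 h1)

lemma exists_levels {X : Type u} [TopologicalSpace X] {T : Type} [LinearOrder T]
    [WellFoundedLT T] (hT : ∀ a : T, #(Iio a) < 𝔠) (F : T → X → ℝ)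
    (hF : ∀ t, Continuous (F t)) :
    ∃ r : T → ℝ, (∀ t, r t ∈ Ioo (0 : ℝ) 1) ∧ ∀ a b, b < a →
      {x | r a < F a x} ⊆ {x | r b < F b x} →
      closure {x | r a < F a x} ⊆ {x | r b < F b x} := by
  let P : (a : T) → ((b : T) → b < a → ℝ) → ℝ → Prop := fun a rec s =>
    s ∈ Ioo (0 : ℝ) 1 ∧ ∀ b : Iio a, {x | s < F a x} ⊆ {x | rec b.1 b.2 < F b.1 x} →
      closure {x | s < F a x} ⊆ {x | rec b.1 b.2 < F b.1 x}
  have hP : ∀ a rec, ∃ s, P a rec s := by
    intro a rec
    obtain ⟨s, hs, h⟩ := exists_level (hT a) (F a) (hF a)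
      (fun b : Iio a => {x | rec b.1 b.2 < F b.1 x})
    exact ⟨s, hs, h⟩
  let step : (a : T) → ((b : T) → b < a → ℝ) → ℝ := fun a rec => (hP a rec).choose
  let r : T → ℝ := (wellFounded_lt (α := T)).fix step
  have hr : ∀ a, P a (fun b _ => r b) (r a) := by
    intro a
    have : r a = step a (fun b _ => r b) := WellFounded.fix_eq _ _ _
    rw [this]
    exact (hP a (fun b _ => r b)).choose_spec
  refine ⟨r, fun t => (hr t).1, fun a b hb => ?_⟩
  exact (hr a).2 ⟨b, hb⟩

/-! ## Decreasing sequences of open sets in pseudocompact closures -/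

lemma inter_closure_nonempty {X : Type u} [TopologicalSpace X] [CompletelyRegularSpace X]
    {O : Set X} (hO : Pseudocompact (closure O)) (V : ℕ → Set X) (hV : ∀ n, IsOpen (V n))
    (hne : ∀ n, (V n).Nonempty) (hanti : Antitone V) (hsub : ∀ n, V n ⊆ O) :
    (⋂ n, closure (V n)).Nonempty := by
  by_contra hemp
  rw [not_nonempty_iff_eq_empty] at hemp
  choose x hx using hne
  have hf : ∀ n, ∃ f : X → unitInterval, Continuous f ∧ f (x n) = 0 ∧ EqOn f 1 (V n)ᶜ := fun n =>
    CompletelyRegularSpace.completely_regular (x n) (V n)ᶜ (hV n).isClosed_compl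
      (fun h => h (hx n))
  choose f hfc hfx hf1 using hf
  let g : ℕ → X → ℝ := fun n y => n * (1 - (f n y : ℝ))
  have hgc : ∀ n, Continuous (g n) := fun n =>
    continuous_const.mul (continuous_const.sub (continuous_subtype_val.comp (hfc n)))
  have hg0 : ∀ n y, 0 ≤ g n y := fun n y =>
    mul_nonneg (Nat.cast_nonneg _) (sub_nonneg.2 (f n y).2.2)
  have hgV : ∀ n, support (g n) ⊆ V n := by
    intro n y hy
    by_contra hyV
    apply hy
    have : f n y = 1 := hf1 n hyV
    simp [g, this]
  have hlf : LocallyFinite (fun n => support (g n)) := by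
    intro y
    have hy : y ∉ ⋂ n, closure (V n) := by rw [hemp]; exact fun h => h
    simp only [mem_iInter, not_forall] at hy
    obtain ⟨m, hm⟩ := hy
    refine ⟨(closure (V m))ᶜ, isClosed_closure.isOpen_compl.mem_nhds hm, ?_⟩
    refine (finite_lt_nat m).subset ?_
    rintro n ⟨z, hz1, hz2⟩
    by_contra hnm
    simp only [mem_ofPred_eq, not_lt] at hnm
    exact hz2 (subset_closure (hanti hnm (hgV n hz1)))
  have hcont : Continuous (fun y => ∑ᶠ n, g n y) := continuous_finsum hgc hlf
  obtain ⟨M, hM⟩ := hO (fun y => ∑ᶠ n, g n y.1) (hcont.comp continuous_subtype_val)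
  obtain ⟨n, hn⟩ := exists_nat_gt M
  have h1 := hM ⟨x n, subset_closure (hsub n (hx n))⟩
  have h2 : g n (x n) ≤ ∑ᶠ k, g k (x n) :=
    single_le_finsum n (hlf.point_finite (x n)) (fun k => hg0 k (x n))
  have h3 : g n (x n) = n := by simp [g, hfx]
  have h4 := le_abs_self (∑ᶠ k, g k (x n))
  simp only at h1
  linarith

/-! ## Families indexed by at most `𝔠` functions -/

lemma family {X : Type u} [TopologicalSpace X] [CompletelyRegularSpace X] {I : Type u}
    (hI : #I ≤ 𝔠) (f : I → X → ℝ) (hf : ∀ i, Continuous (f i)) (O : I → Set X)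
    (hO : ∀ i, Pseudocompact (closure (O i))) (hsub : ∀ i x, 0 < f i x → x ∈ O i)
    (hne : ∀ i, ∃ x, 1 ≤ f i x) :
    ∃ r : I → ℝ, (∀ i, r i ∈ Ioo (0 : ℝ) 1) ∧
      CountablyCompactFamily (range fun i => {x | r i < f i x}) := by
  classical
  let T : Type := (𝔠 : Cardinal.{0}).ord.ToType
  have hT : ∀ a : T, #(Iio a) < 𝔠 := fun a => by simpa [T] using mk_Iio_lt a
  obtain ⟨e⟩ : Nonempty (I ↪ T) := by
    rw [← Cardinal.lift_mk_le']
    have h1 : #T = 𝔠 := by simp [T]
    rw [h1, lift_continuum]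
    simpa using hI
  let F : T → X → ℝ := extend e f (fun _ _ => 0)
  have hFe : ∀ i, F (e i) = f i := fun i => e.injective.extend_apply _ _ _
  have hF : ∀ t, Continuous (F t) := by
    intro t
    by_cases ht : ∃ i, e i = t
    · obtain ⟨i, rfl⟩ := ht
      rw [hFe]
      exact hf i
    · have : F t = fun _ => 0 := extend_apply' _ _ _ ht
      rw [this]
      exact continuous_const
  obtain ⟨r, hr, hlev⟩ := exists_levels hT F hF
  refine ⟨fun i => r (e i), fun i => hr (e i), ?_⟩
  intro s hs hanti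
  choose i hi using hs
  simp only at hi
  have hsF : ∀ n, s n = {x | r (e (i n)) < F (e (i n)) x} := by
    intro n
    rw [← hi n, hFe]
  have hsne : ∀ n, (s n).Nonempty := by
    intro n
    obtain ⟨x, hx⟩ := hne (i n)
    refine ⟨x, ?_⟩
    rw [← hi n, mem_ofPred_eq]
    exact lt_of_lt_of_le (hr _).2 hx
  have hsO : ∀ n, s n ⊆ O (i n) := by
    intro n x hx
    rw [← hi n, mem_ofPred_eq] at hx
    exact hsub _ _ (lt_trans (hr _).1 hx)
  have hso : ∀ n, IsOpen (s n) := by
    intro n
    rw [← hi n]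
    exact isOpen_lt continuous_const (hf _)
  obtain ⟨g, hg | hg⟩ := exists_increasing_or_nonincreasing_subseq (· < ·) (fun n => e (i n))
  · have hcl : ∀ n, closure (s (g (n + 1))) ⊆ s (g n) := by
      intro n
      have h1 := hlev (e (i (g (n + 1)))) (e (i (g n))) (hg n (n + 1) (Nat.lt_succ_self n))
      rw [← hsF, ← hsF] at h1
      exact h1 (hanti (g.monotone (Nat.le_succ n)))
    obtain ⟨x, hx⟩ := inter_closure_nonempty (hO (i (g 0))) (fun n => s (g n))
      (fun n => hso _) (fun n => hsne _) (fun m n hmn => hanti (g.monotone hmn))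
      (fun n => (hanti (g.monotone (Nat.zero_le n))).trans (hsO _))
    refine ⟨x, ?_⟩
    rw [mem_iInter] at hx ⊢
    intro m
    exact hanti (g.strictMono.le_apply) (hcl m (hx (m + 1)))
  · obtain ⟨N, hN⟩ : ∃ N, ∀ n, e (i (g N)) ≤ e (i (g n)) := by
      obtain ⟨t, ⟨N, hN⟩, ht⟩ := (wellFounded_lt (α := T)).has_min
        (range fun n => e (i (g n))) (range_nonempty _)
      refine ⟨N, fun n => ?_⟩
      have := ht _ (mem_range_self n)
      simp only at hN
      rw [hN]
      exact not_lt.1 this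
    obtain ⟨x, hx⟩ := hsne (g N)
    refine ⟨x, ?_⟩
    rw [mem_iInter]
    intro m
    have h1 : e (i (g (max m N))) = e (i (g N)) := by
      rcases (le_max_right m N).eq_or_lt with h | h
      · rw [← h]
      · exact le_antisymm (not_lt.1 (hg _ _ h)) (hN _)
    have h2 : s (g (max m N)) = s (g N) := by
      rw [hsF, hsF, h1]
    apply hanti (show m ≤ g (max m N) from (le_max_left m N).trans g.strictMono.le_apply)
    rw [h2]
    exact hx

/-! ## The Telgarsky property for weight at most `𝔠` -/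

theorem telgarsky {X : Type u} [TopologicalSpace X] [CompletelyRegularSpace X]
    (hX : LocallyPseudocompact X) (hw : WeightLEContinuum X) : TelgarskyCountablyCompact X := by
  obtain ⟨W, hW, hWc⟩ := hw
  let I : Type u := {p : W × W // ∃ (f : X → ℝ) (O : Set X), Continuous f ∧
    (∀ x ∈ p.1.1, 1 ≤ f x) ∧ (∀ x, 0 < f x → x ∈ p.2.1) ∧ p.1.1.Nonempty ∧
    Pseudocompact (closure O) ∧ p.2.1 ⊆ O}
  have hI : #I ≤ 𝔠 := by
    refine (Cardinal.mk_subtype_le _).trans ?_
    simp only [Cardinal.mk_prod, Cardinal.lift_id]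
    exact (mul_le_mul' hWc hWc).trans (Cardinal.mul_eq_self aleph0_le_continuum).le
  choose f O hfc hf1 hf2 hne hO hsub using fun i : I => i.2
  obtain ⟨r, hr, hB⟩ := family hI f hfc O hO (fun i x hx => hsub i (hf2 i x hx))
    (fun i => by obtain ⟨x, hx⟩ := hne i; exact ⟨x, hf1 i x hx⟩)
  refine ⟨range fun i => {x | r i < f i x}, ?_, hB⟩
  apply isTopologicalBasis_of_isOpen_of_nhds
  · rintro u ⟨i, rfl⟩
    exact isOpen_lt continuous_const (hfc i)
  · intro x u hxu hu
    obtain ⟨P, hPo, hxP, hP⟩ := hX x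
    obtain ⟨w2, hw2, hxw2, hw2s⟩ := hW.exists_subset_of_mem_open (show x ∈ u ∩ P from ⟨hxu, hxP⟩)
      (hu.inter hPo)
    obtain ⟨φ, hφc, hφx, hφ1⟩ := CompletelyRegularSpace.completely_regular x w2ᶜ
      (hW.isOpen hw2).isClosed_compl (fun h => h hxw2)
    have hgc : Continuous (fun y => 2 * (1 - (φ y : ℝ))) :=
      continuous_const.mul (continuous_const.sub (continuous_subtype_val.comp hφc))
    obtain ⟨w1, hw1, hxw1, hw1s⟩ := hW.exists_subset_of_mem_open
      (show x ∈ {y | (1 : ℝ) < 2 * (1 - (φ y : ℝ))} by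
        rw [mem_ofPred_eq, hφx]; norm_num) (isOpen_lt continuous_const hgc)
    let i : I := ⟨(⟨w1, hw1⟩, ⟨w2, hw2⟩), fun y => 2 * (1 - (φ y : ℝ)), P, hgc,
      fun y hy => by
        have := hw1s hy
        rw [mem_ofPred_eq] at this
        exact this.le,
      fun y hy => by
        by_contra hyw
        have h1 : φ y = 1 := hφ1 hyw
        simp only at hy
        rw [h1] at hy
        simp at hy,
      ⟨x, hxw1⟩, hP, fun y hy => (hw2s hy).2⟩
    refine ⟨_, mem_range_self i, ?_, ?_⟩
    · rw [mem_ofPred_eq]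
      exact lt_of_lt_of_le (hr i).2 (hf1 i x hxw1)
    · intro y hy
      rw [mem_ofPred_eq] at hy
      exact (hw2s (hf2 i y (lt_trans (hr i).1 hy))).1

/-! ## The Oxtoby property for local `π`-weight at most `𝔠` -/

lemma oxtoby_local {X : Type u} [TopologicalSpace X] [CompletelyRegularSpace X]
    (hX : LocallyPseudocompact X) {D : Set X} (hD : PiWeightLEContinuum D) :
    ∃ B : Set (Set X), (∀ b ∈ B, IsOpen b ∧ b.Nonempty ∧ b ⊆ D) ∧
      (∀ U : Set X, IsOpen U → U.Nonempty → U ⊆ D → ∃ b ∈ B, b ⊆ U) ∧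
      CountablyCompactFamily B := by
  obtain ⟨W, hW1, hW2, hWc⟩ := hD
  have hex : ∀ w : W, ∃ (f : X → ℝ) (O : Set X), Continuous f ∧ (∃ x, 1 ≤ f x) ∧
      (∀ x, 0 < f x → x ∈ w.1) ∧ Pseudocompact (closure O) ∧ ∀ x, 0 < f x → x ∈ O := by
    intro w
    obtain ⟨hwo, ⟨x, hx⟩, hwD⟩ := hW1 w.1 w.2
    obtain ⟨P, hPo, hxP, hP⟩ := hX x
    obtain ⟨φ, hφc, hφx, hφ1⟩ := CompletelyRegularSpace.completely_regular x (w.1 ∩ P)ᶜ
      (hwo.inter hPo).isClosed_compl (fun h => h ⟨hx, hxP⟩)
    have hkey : ∀ y, 0 < 1 - (φ y : ℝ) → y ∈ w.1 ∩ P := by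
      intro y hy
      by_contra hyw
      have h1 : φ y = 1 := hφ1 hyw
      rw [h1] at hy
      simp at hy
    exact ⟨fun y => 1 - (φ y : ℝ), P,
      continuous_const.sub (continuous_subtype_val.comp hφc), ⟨x, by simp [hφx]⟩,
      fun y hy => (hkey y hy).1, hP, fun y hy => (hkey y hy).2⟩
  choose f O hfc hf1 hf2 hO hsub using hex
  obtain ⟨r, hr, hB⟩ := family hWc f hfc O hO hsub hf1
  refine ⟨range fun i => {x | r i < f i x}, ?_, ?_, hB⟩
  · rintro b ⟨i, rfl⟩
    refine ⟨isOpen_lt continuous_const (hfc i), ?_, ?_⟩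
    · obtain ⟨x, hx⟩ := hf1 i
      exact ⟨x, by rw [mem_ofPred_eq]; exact lt_of_lt_of_le (hr i).2 hx⟩
    · intro y hy
      rw [mem_ofPred_eq] at hy
      exact (hW1 i.1 i.2).2.2 (hf2 i y (lt_trans (hr i).1 hy))
  · intro U hU hUne hUD
    obtain ⟨w, hw, hwU⟩ := hW2 U hU hUne hUD
    refine ⟨_, mem_range_self ⟨w, hw⟩, ?_⟩
    intro y hy
    rw [mem_ofPred_eq] at hy
    exact hwU (hf2 ⟨w, hw⟩ y (lt_trans (hr _).1 hy))

/-- every nonempty open set contains a nonempty open set of `π`-weight at most `𝔠`. -/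
def LocalPiWeightLEContinuum (X : Type u) [TopologicalSpace X] : Prop :=
  ∀ U : Set X, IsOpen U → U.Nonempty → ∃ D : Set X, IsOpen D ∧ D.Nonempty ∧ D ⊆ U ∧
    PiWeightLEContinuum D

theorem oxtoby {X : Type u} [TopologicalSpace X] [CompletelyRegularSpace X]
    (hX : LocallyPseudocompact X) (hw : LocalPiWeightLEContinuum X) :
    OxtobyCountablyCompact X := by
  classical
  obtain ⟨C, hC⟩ := zorn_subset
    {C : Set (Set X) | (∀ D ∈ C, IsOpen D ∧ D.Nonempty ∧ PiWeightLEContinuum D) ∧
      C.PairwiseDisjoint id} (by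
    intro c hc hchain
    refine ⟨⋃₀ c, ⟨?_, ?_⟩, fun s hs => subset_sUnion_of_mem hs⟩
    · rintro D ⟨C', hC', hD⟩
      exact (hc hC').1 D hD
    · rw [pairwiseDisjoint_sUnion hchain.directedOn]
      exact fun C' hC' => (hc hC').2)
  obtain ⟨hC1, hC2⟩ := hC.prop
  choose! B hB1 hB2 hB3 using fun (D : Set X) (hD : PiWeightLEContinuum D) => oxtoby_local hX hD
  refine ⟨⋃ D ∈ C, B D, ?_, ⟨?_, ?_⟩, ?_⟩
  · intro b hb
    simp only [mem_iUnion] at hb
    obtain ⟨D, hD, hb⟩ := hb
    exact (hB1 D (hC1 D hD).2.2 b hb).1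
  · intro b hb
    simp only [mem_iUnion] at hb
    obtain ⟨D, hD, hb⟩ := hb
    obtain ⟨h1, h2, -⟩ := hB1 D (hC1 D hD).2.2 b hb
    rwa [h1.interior_eq]
  · intro U hU hUne
    obtain ⟨E, hEo, hEne, hEU, hE⟩ := hw U hU hUne
    obtain ⟨D, hD, hDE⟩ : ∃ D ∈ C, (D ∩ E).Nonempty := by
      by_contra hcon
      push Not at hcon
      have hmem : insert E C ⊆ C := by
        apply hC.le_of_ge _ (subset_insert _ _)
        refine ⟨?_, ?_⟩
        · intro D hD
          rcases mem_insert_iff.1 hD with h | h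
          · rw [h]; exact ⟨hEo, hEne, hE⟩
          · exact hC1 D h
        · apply hC2.insert
          intro D hD _
          change Disjoint E D
          rw [disjoint_iff_inter_eq_empty, inter_comm]
          exact hcon D hD
      have h1 := hcon E (hmem (mem_insert _ _))
      rw [inter_self] at h1
      exact hEne.ne_empty h1
    obtain ⟨b, hb, hbs⟩ := hB2 D (hC1 D hD).2.2 (D ∩ E) ((hC1 D hD).1.inter hEo) hDE
      inter_subset_left
    refine ⟨b, ?_, hbs.trans (inter_subset_right.trans hEU)⟩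
    simp only [mem_iUnion]
    exact ⟨D, hD, hb⟩
  · intro s hs hanti
    simp only [mem_iUnion] at hs
    choose D hD hsD using hs
    have hall : ∀ n, D n = D 0 := by
      intro n
      by_contra hne
      obtain ⟨x, hx⟩ := (hB1 (D n) (hC1 _ (hD n)).2.2 _ (hsD n)).2.1
      have h1 := (hB1 (D n) (hC1 _ (hD n)).2.2 _ (hsD n)).2.2 hx
      have h2 := (hB1 (D 0) (hC1 _ (hD 0)).2.2 _ (hsD 0)).2.2 (hanti (Nat.zero_le n) hx)
      exact (disjoint_left.1 (hC2 (hD n) (hD 0) hne)) h1 h2
    refine hB3 (D 0) (hC1 _ (hD 0)).2.2 s (fun n => ?_) hanti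
    rw [← hall n]
    exact hsD n

/-! ## Separable spaces -/

lemma weight_of_separable {X : Type u} [TopologicalSpace X] [RegularSpace X]
    [SeparableSpace X] : WeightLEContinuum X := by
  obtain ⟨S, hSc, hSd⟩ := exists_countable_dense X
  refine ⟨(fun A : Set X => interior (closure A)) '' (𝒫 S), ?_, ?_⟩
  · apply isTopologicalBasis_of_isOpen_of_nhds
    · rintro u ⟨A, -, rfl⟩
      exact isOpen_interior
    · intro x u hxu hu
      obtain ⟨v, hv, hvc, hvu⟩ := exists_mem_nhds_isClosed_subset (hu.mem_nhds hxu)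
      refine ⟨_, ⟨interior v ∩ S, inter_subset_right, rfl⟩, ?_, ?_⟩
      · exact interior_maximal (hSd.open_subset_closure_inter isOpen_interior) isOpen_interior
          (mem_interior_iff_mem_nhds.2 hv)
      · refine interior_subset.trans (Subset.trans ?_ hvu)
        exact closure_minimal (inter_subset_left.trans interior_subset) hvc
  · refine Cardinal.mk_image_le.trans ?_
    rw [Cardinal.mk_powerset, ← two_power_aleph0]
    exact Cardinal.power_le_power_left two_ne_zero hSc.le_aleph0

lemma locally_of_pseudocompact {X : Type u} [TopologicalSpace X] (h : Pseudocompact X) :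
    LocallyPseudocompact X := by
  intro x
  refine ⟨univ, isOpen_univ, mem_univ x, ?_⟩
  intro f hf
  have hc : ∀ y : X, y ∈ closure (univ : Set X) := fun y => subset_closure (mem_univ y)
  obtain ⟨M, hM⟩ := h (fun y => f ⟨y, hc y⟩) (hf.comp (continuous_id.subtype_mk hc))
  exact ⟨M, fun y => hM y.1⟩

/-- **Main result.**  Let `X` be a locally pseudocompact Tychonoff space.
(1) If `X` has weight at most `𝔠`, then `X` is Telgarsky countably compact.
(2) If `X` is separable, then `X` is Telgarsky countably compact.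
(3) If every nonempty open subset of `X` contains a nonempty open set of `π`-weight at most `𝔠`,
then `X` is Oxtoby countably compact.
(4) Every pseudocompact space is locally pseudocompact, so (1)-(3) hold for these. -/
theorem result :
    (∀ (X : Type u) [TopologicalSpace X] [T35Space X], LocallyPseudocompact X →
      WeightLEContinuum X → TelgarskyCountablyCompact X) ∧
    (∀ (X : Type u) [TopologicalSpace X] [T35Space X] [SeparableSpace X],
      LocallyPseudocompact X → TelgarskyCountablyCompact X) ∧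
    (∀ (X : Type u) [TopologicalSpace X] [T35Space X], LocallyPseudocompact X →
      LocalPiWeightLEContinuum X → OxtobyCountablyCompact X) ∧
    (∀ (X : Type u) [TopologicalSpace X], Pseudocompact X → LocallyPseudocompact X) :=
  ⟨fun _ _ _ h1 h2 => telgarsky h1 h2, fun _ _ _ _ h1 => telgarsky h1 weight_of_separable,
    fun _ _ _ h1 h2 => oxtoby h1 h2, fun _ _ h => locally_of_pseudocompact h⟩

end Pool.Agent.Results.MP_ea20df_gt.WeightAtMostContinuum
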